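import Pool.Agent.W915.LS.SHB1

/-!
LS-SHB, part 2: the map on the Tate-Shafarevich groups.
-/

set_option autoImplicit false

open WeierstrassCurve Pool.Agent.W262.SH Pool.Agent.W307.LS
open scoped Classical

namespace Pool.Agent.W915.LS

section group

theorem card_hom {G N : Type*} [AddCommGroup G] [AddCommGroup N] (g : G →+ N) :
    Nat.card g.ker * Nat.card g.range = Nat.card G := by
  rw [← AddSubgroup.index_ker, AddSubgroup.card_mul_index]

theorem halve (x : ZMod 4) (h : x + x = 0) : ∃ y : ZMod 4, y + y = x := by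
  revert x
  decide

theorem grp (S : Type) [AddCommGroup S] (r : ℕ) (Ψ : (Fin r → ZMod 4) →+ S)
    (hK : ∀ v, Ψ v = 0 → v + v = 0) :
    ∃ j : (Fin r → ZMod 2) →+ S, Function.Injective j := by
  -- the two-torsion of the range
  let T : AddSubgroup S := Ψ.range ⊓ (nsmulAddMonoidHom 2 : S →+ S).ker
  have hT : ∀ x ∈ T, x + x = 0 := by
    rintro x ⟨-, hx⟩
    have h : (2 : ℕ) • x = 0 := hx
    rwa [two_nsmul] at h
  have hTfin : Finite T := by
    have h1 : Finite Ψ.range := Set.finite_range Ψ
    exact Finite.of_injective (fun x : T => (⟨x.1, x.2.1⟩ : Ψ.range))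
      (fun x y h => Subtype.ext (congrArg (fun z : Ψ.range => z.1) h))
  let VK : AddSubgroup (Fin r → ZMod 4) := ((nsmulAddMonoidHom 2 : S →+ S).comp Ψ).ker
  have hVK : ∀ v, v ∈ VK ↔ Ψ v + Ψ v = 0 := by
    intro v
    have h : v ∈ VK ↔ (2 : ℕ) • Ψ v = 0 := Iff.rfl
    rw [h, two_nsmul]
  -- first count
  have hle1 : Nat.card VK ≤ Nat.card Ψ.ker * Nat.card T := by
    rw [← card_hom (Ψ.comp VK.subtype)]
    apply Nat.mul_le_mul
    · refine Nat.card_le_card_of_injective
        (fun x : (Ψ.comp VK.subtype).ker => (⟨x.1.1, x.2⟩ : Ψ.ker)) ?_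
      intro x y h
      have h1 : x.1.1 = y.1.1 := congrArg (fun z : Ψ.ker => z.1) h
      exact Subtype.ext (Subtype.ext h1)
    · refine Nat.card_le_card_of_injective
        (fun x : (Ψ.comp VK.subtype).range => (⟨x.1, by
          obtain ⟨⟨v, hv⟩, hx⟩ := x.2
          refine ⟨⟨v, hx⟩, ?_⟩
          have h1 : Ψ v = x.1 := hx
          have h2 := (hVK v).1 hv
          rw [h1, ← two_nsmul] at h2
          exact h2⟩ : T)) ?_
      intro x y h
      have h1 : x.1 = y.1 := congrArg (fun z : T => z.1) h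
      exact Subtype.ext h1
  -- second count
  have hle2 : 2 ^ r * Nat.card Ψ.ker ≤ Nat.card VK := by
    rw [← card_hom ((nsmulAddMonoidHom 2 : (Fin r → ZMod 4) →+ (Fin r → ZMod 4)).comp VK.subtype)]
    apply Nat.mul_le_mul
    · have hcard : 2 ^ r = Nat.card (Fin r → Bool) := by
        rw [Nat.card_eq_fintype_card, Fintype.card_fun, Fintype.card_bool, Fintype.card_fin]
      rw [hcard]
      have h22 : (2 : ZMod 4) + 2 = 0 := by decide
      have hw : ∀ w : Fin r → Bool, (fun i => if w i then (2 : ZMod 4) else 0) +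
          (fun i => if w i then (2 : ZMod 4) else 0) = 0 := by
        intro w
        funext i
        simp only [Pi.add_apply, Pi.zero_apply]
        split_ifs
        · exact h22
        · exact add_zero 0
      refine Nat.card_le_card_of_injective (fun w : Fin r → Bool =>
        (⟨⟨fun i => if w i then (2 : ZMod 4) else 0, by
          rw [hVK, ← map_add, hw, map_zero]⟩, by
          rw [AddMonoidHom.mem_ker]
          change (2 : ℕ) • (fun i => if w i then (2 : ZMod 4) else 0) = 0
          rw [two_nsmul, hw]⟩ :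
          ((nsmulAddMonoidHom 2 : (Fin r → ZMod 4) →+ (Fin r → ZMod 4)).comp VK.subtype).ker)) ?_
      intro w w' h
      have h1 : (fun i => if w i then (2 : ZMod 4) else 0) =
          (fun i => if w' i then (2 : ZMod 4) else 0) := by
        have := congrArg (fun z : ((nsmulAddMonoidHom 2 :
          (Fin r → ZMod 4) →+ (Fin r → ZMod 4)).comp VK.subtype).ker => z.1.1) h
        exact this
      funext i
      have h2 : (if w i then (2 : ZMod 4) else 0) = (if w' i then (2 : ZMod 4) else 0) :=
        congrFun h1 i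
      have h20 : (2 : ZMod 4) ≠ 0 := by decide
      cases hwi : w i <;> cases hwi' : w' i
      · rfl
      · rw [hwi, hwi'] at h2
        simp at h2
        exact absurd h2.symm h20
      · rw [hwi, hwi'] at h2
        simp at h2
        exact absurd h2 h20
      · rfl
    · refine Nat.card_le_card_of_injective (fun k : Ψ.ker =>
        (⟨k.1, by
          have hk0 : Ψ k.1 = 0 := k.2
          have hk := hK k.1 hk0
          have hex : ∀ i, ∃ y : ZMod 4, y + y = k.1 i := fun i =>
            halve _ (congrFun hk i)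
          choose v hv using hex
          have hvk : v + v = k.1 := funext hv
          refine ⟨⟨v, by rw [hVK, ← map_add, hvk, hk0]⟩, ?_⟩
          change (2 : ℕ) • v = k.1
          rw [two_nsmul, hvk]⟩ :
          ((nsmulAddMonoidHom 2 : (Fin r → ZMod 4) →+ (Fin r → ZMod 4)).comp VK.subtype).range)) ?_
      intro x y h
      have h1 : x.1 = y.1 := congrArg (fun z : ((nsmulAddMonoidHom 2 :
          (Fin r → ZMod 4) →+ (Fin r → ZMod 4)).comp VK.subtype).range => z.1) h
      exact Subtype.ext h1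
  have hKpos : 0 < Nat.card Ψ.ker := Nat.card_pos
  have hcardT : 2 ^ r ≤ Nat.card T := by
    have h := hle2.trans hle1
    rw [mul_comm (Nat.card Ψ.ker)] at h
    exact Nat.le_of_mul_le_mul_right h hKpos
  -- the vector space structure
  let _ : Module (ZMod 2) T := AddCommGroup.zmodModule (n := 2) (G := T) (fun x => by
    apply Subtype.ext
    rw [two_nsmul]
    exact hT x.1 x.2)
  have : Module.Finite (ZMod 2) T := Module.Finite.of_finite
  have hcard := Module.natCard_eq_pow_finrank (K := ZMod 2) (V := T)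
  rw [Nat.card_zmod] at hcard
  have hrd : r ≤ Module.finrank (ZMod 2) T := by
    rw [hcard] at hcardT
    exact (Nat.pow_le_pow_iff_right (by norm_num)).1 hcardT
  let bs := Module.finBasis (ZMod 2) T
  have hli : LinearIndependent (ZMod 2) (bs ∘ Fin.castLE hrd) :=
    bs.linearIndependent.comp _ (Fin.castLE_injective hrd)
  have hinj := hli.fintypeLinearCombination_injective
  refine ⟨T.subtype.comp (Fintype.linearCombination (ZMod 2) (bs ∘ Fin.castLE hrd)).toAddMonoidHom,
    ?_⟩
  exact (Subtype.val_injective).comp hinj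

end group

section sha

variable (hISO : ISO) {a b : ℤ} (ha : a ≠ 0) (hb : b ≠ 0) (hab : a ≠ b)

theorem loc_phi (K : Type) [Field K] [Algebra ℚ K] (f : (QB ≃ₐ[ℚ] QB) → Pt (F4 a b) QB)
    (h : LocTriv (F4 a b) K f) :
    LocTriv (E (4 * a) (4 * b)) K (fun σ => phi hISO ha hb hab QB (f σ)) := by
  intro ι
  obtain ⟨P, hP⟩ := h ι
  refine ⟨phi hISO ha hb hab (AlgebraicClosure K) P, fun τ σ hc => ?_⟩
  rw [← phi_act, hP τ σ hc, map_sub, phi_act]

theorem sha_phi (f : (QB ≃ₐ[ℚ] QB) → Pt (F4 a b) QB) (hf : f ∈ shaCoc (F4 a b)) :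
    (fun σ => phi hISO ha hb hab QB (f σ)) ∈ shaCoc (E (4 * a) (4 * b)) := by
  obtain ⟨⟨h1, h2⟩, h3, h4⟩ := hf
  refine ⟨⟨h1.comp _, fun σ τ => ?_⟩, fun p _ => ?_, ?_⟩
  · simp only [h2]
    rw [map_add, phi_act]
  · exact loc_phi hISO ha hb hab ℚ_[p] f (h3 p)
  · exact loc_phi hISO ha hb hab ℝ f h4

/-- the map on the cocycles -/
noncomputable def phiS : shaCoc (F4 a b) →+ shaCoc (E (4 * a) (4 * b)) where
  toFun f := ⟨fun σ => phi hISO ha hb hab QB (f.1 σ), sha_phi hISO ha hb hab f.1 f.2⟩
  map_zero' := by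
    apply Subtype.ext
    funext σ
    exact map_zero _
  map_add' f g := by
    apply Subtype.ext
    funext σ
    exact map_add _ _ _

/-- the map on the Tate-Shafarevich groups -/
noncomputable def PhiS : Sha (F4 a b) →+ Sha (E (4 * a) (4 * b)) :=
  QuotientAddGroup.map _ _ (phiS hISO ha hb hab) (by
    intro f hf
    rw [AddSubgroup.mem_addSubgroupOf] at hf
    rw [AddSubgroup.mem_comap, AddSubgroup.mem_addSubgroupOf]
    obtain ⟨P, hP⟩ := hf
    refine ⟨phi hISO ha hb hab QB P, fun σ => ?_⟩
    change phi hISO ha hb hab QB (f.1 σ) = _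
    rw [hP σ, map_sub, phi_act])

theorem PhiS_ker (c : Sha (F4 a b)) (hc : PhiS hISO ha hb hab c = 0) : c + c = 0 := by
  induction c using QuotientAddGroup.induction_on with
  | H f =>
    have h1 : (QuotientAddGroup.mk (phiS hISO ha hb hab f) : Sha (E (4 * a) (4 * b))) = 0 := hc
    rw [QuotientAddGroup.eq_zero_iff, AddSubgroup.mem_addSubgroupOf] at h1
    obtain ⟨Q, hQ⟩ := h1
    obtain ⟨P, hP⟩ := phi_surj hISO ha hb hab QB Q
    rw [← QuotientAddGroup.mk_add, QuotientAddGroup.eq_zero_iff, AddSubgroup.mem_addSubgroupOf]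
    refine ⟨P + P, fun σ => ?_⟩
    have h2 : phi hISO ha hb hab QB (f.1 σ - (act (F4 a b) σ.toAlgHom P - P)) = 0 := by
      have h3 : phi hISO ha hb hab QB (f.1 σ) = act (E (4 * a) (4 * b)) σ.toAlgHom Q - Q := hQ σ
      rw [map_sub, map_sub, phi_act, hP, h3, sub_self]
    have h4 := phi_ker hISO ha hb hab QB _ h2
    change f.1 σ + f.1 σ = _
    rw [map_add]
    have h5 : f.1 σ + f.1 σ = (f.1 σ - (act (F4 a b) σ.toAlgHom P - P)) +
        (f.1 σ - (act (F4 a b) σ.toAlgHom P - P)) +
        (act (F4 a b) σ.toAlgHom P + act (F4 a b) σ.toAlgHom P - (P + P)) := by abel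
    rw [h5, h4, zero_add]

end sha

/-- SHB from ISO -/
theorem shb_of : Pool.Agent.W307.LS.ISO → Pool.Agent.W307.LS.SHB := by
  intro hISO a b ha hb hab r hj
  obtain ⟨j, hj⟩ := hj
  refine grp (Sha (E (4 * a) (4 * b))) r ((PhiS hISO ha hb hab).comp j) ?_
  intro v hv
  have h1 := PhiS_ker hISO ha hb hab (j v) hv
  rw [← map_add] at h1
  exact hj (h1.trans (map_zero j).symm)

end Pool.Agent.W915.LS
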