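import Pool.Agent.W307.LS.Stm

/-!
LS-SHB, part 1: the isogeny over all fields, group theory.
-/

set_option autoImplicit false

open WeierstrassCurve Pool.Agent.W262.SH Pool.Agent.W307.LS
open scoped Classical

namespace Pool.Agent.W915.LS

section coeffs

variable (a b : ℤ) (L : Type) [Field L] [Algebra ℚ L]

theorem F4a1 : ((F4 a b).baseChange L).toAffine.a₁ = 0 := by simp [F4]
theorem F4a3 : ((F4 a b).baseChange L).toAffine.a₃ = 0 := by simp [F4]
theorem F4a6 : ((F4 a b).baseChange L).toAffine.a₆ = 0 := by simp [F4]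
theorem F4a2 : ((F4 a b).baseChange L).toAffine.a₂ = 2 * ((a : L) + b) := by
  have : CharZero L := algebraRat.charZero L
  simp [F4]
theorem F4a4 : ((F4 a b).baseChange L).toAffine.a₄ = ((a : L) - b) ^ 2 := by
  have : CharZero L := algebraRat.charZero L
  simp [F4]
theorem Ea1 : ((E (4 * a) (4 * b)).baseChange L).toAffine.a₁ = 0 := by simp [E]
theorem Ea3 : ((E (4 * a) (4 * b)).baseChange L).toAffine.a₃ = 0 := by simp [E]
theorem Ea6 : ((E (4 * a) (4 * b)).baseChange L).toAffine.a₆ = 0 := by simp [E]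
theorem Ea2 : ((E (4 * a) (4 * b)).baseChange L).toAffine.a₂ = -(4 * (a : L) + 4 * b) := by
  have : CharZero L := algebraRat.charZero L
  simp [E]
theorem Ea4 : ((E (4 * a) (4 * b)).baseChange L).toAffine.a₄ = 4 * (a : L) * (4 * b) := by
  have : CharZero L := algebraRat.charZero L
  simp [E]

end coeffs

/-- the isogeny over `L` -/
theorem iso_ex (hISO : ISO) {a b : ℤ} (ha : a ≠ 0) (hb : b ≠ 0) (hab : a ≠ b)
    (L : Type) [Field L] [Algebra ℚ L] :
    ∃ φ : Pt (F4 a b) L →+ Pt (E (4 * a) (4 * b)) L,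
      (∀ (x y : L) (h : ((F4 a b).baseChange L).toAffine.Nonsingular x y), x ≠ 0 →
        ∃ h' : ((E (4 * a) (4 * b)).baseChange L).toAffine.Nonsingular (y ^ 2 / x ^ 2)
          (y * (((a : L) - b) ^ 2 - x ^ 2) / x ^ 2),
          φ (Affine.Point.some x y h) = Affine.Point.some _ _ h') ∧
      ∀ (y : L) (h : ((F4 a b).baseChange L).toAffine.Nonsingular 0 y),
        φ (Affine.Point.some 0 y h) = 0 := by
  have : CharZero L := algebraRat.charZero L
  have ha' : (a : L) ≠ 0 := by exact_mod_cast ha
  have hb' : (b : L) ≠ 0 := by exact_mod_cast hb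
  have hab' : (a : L) - b ≠ 0 := sub_ne_zero.2 (by exact_mod_cast hab)
  obtain ⟨φ, h1, h2⟩ := hISO L ((F4 a b).baseChange L).toAffine
    ((E (4 * a) (4 * b)).baseChange L).toAffine (F4a1 a b L) (F4a3 a b L) (F4a6 a b L)
    (by rw [F4a4]; exact pow_ne_zero 2 hab') (Ea1 a b L) (Ea3 a b L) (Ea6 a b L)
    (by rw [F4a2, Ea2]; ring) (by rw [F4a2, F4a4, Ea4]; ring)
    (by rw [Ea4]; exact mul_ne_zero (mul_ne_zero (by norm_num) ha') (mul_ne_zero (by norm_num) hb'))
  refine ⟨φ, ?_, h2⟩
  intro x y h hx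
  obtain ⟨h', e⟩ := h1 x y h hx
  rw [F4a4] at h'
  refine ⟨h', ?_⟩
  rw [e, Affine.Point.some.injEq, F4a4]
  exact ⟨rfl, rfl⟩

/-- the isogeny -/
noncomputable def phi (hISO : ISO) {a b : ℤ} (ha : a ≠ 0) (hb : b ≠ 0) (hab : a ≠ b)
    (L : Type) [Field L] [Algebra ℚ L] : Pt (F4 a b) L →+ Pt (E (4 * a) (4 * b)) L :=
  (iso_ex hISO ha hb hab L).choose

section phi

variable (hISO : ISO) {a b : ℤ} (ha : a ≠ 0) (hb : b ≠ 0) (hab : a ≠ b)
  (L : Type) [Field L] [Algebra ℚ L]

theorem phi_some (x y : L) (h : ((F4 a b).baseChange L).toAffine.Nonsingular x y) (hx : x ≠ 0) :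
    ∃ h' : ((E (4 * a) (4 * b)).baseChange L).toAffine.Nonsingular (y ^ 2 / x ^ 2)
          (y * (((a : L) - b) ^ 2 - x ^ 2) / x ^ 2),
      phi hISO ha hb hab L (Affine.Point.some x y h) = Affine.Point.some _ _ h' :=
  (iso_ex hISO ha hb hab L).choose_spec.1 x y h hx

theorem phi_zero' (y : L) (h : ((F4 a b).baseChange L).toAffine.Nonsingular 0 y) :
    phi hISO ha hb hab L (Affine.Point.some 0 y h) = 0 :=
  (iso_ex hISO ha hb hab L).choose_spec.2 y h

/-- the isogeny commutes with field homomorphisms -/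
theorem phi_act {F : Type} [Field F] [Algebra ℚ F] (ψ : F →ₐ[ℚ] L) (P : Pt (F4 a b) F) :
    phi hISO ha hb hab L (act (F4 a b) ψ P) =
      act (E (4 * a) (4 * b)) ψ (phi hISO ha hb hab F P) := by
  rcases P with _ | ⟨x, y, h⟩
  · have h0 : (Affine.Point.zero : Pt (F4 a b) F) = 0 := rfl
    rw [h0, map_zero, map_zero, map_zero, map_zero]
  · have h1 : act (F4 a b) ψ (.some x y h) = .some (ψ x) (ψ y)
        (((F4 a b).toAffine.baseChange_nonsingular ψ.injective x y).2 h) := rfl
    by_cases hx : x = 0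
    · subst hx
      rw [phi_zero', map_zero, h1]
      have h2 : ∀ (z w : L) (hz : z = 0)
          (hh : ((F4 a b).baseChange L).toAffine.Nonsingular z w),
          phi hISO ha hb hab L (.some z w hh) = 0 := by
        intro z w hz hh
        subst hz
        exact phi_zero' hISO ha hb hab L w hh
      exact h2 _ _ (map_zero ψ) _
    · have hx' : ψ x ≠ 0 := (map_ne_zero ψ).2 hx
      obtain ⟨h', e⟩ := phi_some hISO ha hb hab F x y h hx
      rw [e, h1]
      obtain ⟨h'', e'⟩ := phi_some hISO ha hb hab L (ψ x) (ψ y)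
        (((F4 a b).toAffine.baseChange_nonsingular ψ.injective x y).2 h) hx'
      rw [e']
      have h3 : act (E (4 * a) (4 * b)) ψ (.some _ _ h') = .some (ψ (y ^ 2 / x ^ 2))
        (ψ (y * (((a : F) - b) ^ 2 - x ^ 2) / x ^ 2))
        (((E (4 * a) (4 * b)).toAffine.baseChange_nonsingular ψ.injective _ _).2 h') := rfl
      rw [h3, Affine.Point.some.injEq]
      constructor
      · rw [map_div₀, map_pow, map_pow]
      · rw [map_div₀, map_mul, map_sub, map_pow, map_pow, map_sub, map_intCast, map_intCast]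

/-- the kernel is killed by `2` -/
theorem phi_ker (R : Pt (F4 a b) L) (h : phi hISO ha hb hab L R = 0) : R + R = 0 := by
  rcases R with _ | ⟨x, y, hR⟩
  · have h0 : (Affine.Point.zero : Pt (F4 a b) L) = 0 := rfl
    rw [h0, add_zero]
  · by_cases hx : x = 0
    · subst hx
      apply Affine.Point.add_self_of_Y_eq
      have h1 := hR.1
      rw [Affine.equation_iff, F4a1, F4a3, F4a6] at h1
      have h2 : y ^ 2 = 0 := by linear_combination h1
      have h3 : y = 0 := pow_eq_zero_iff (two_ne_zero) |>.1 h2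
      rw [Affine.negY, F4a1, F4a3, h3]
      ring
    · obtain ⟨h', e⟩ := phi_some hISO ha hb hab L x y hR hx
      rw [e] at h
      exact absurd h (Affine.Point.some_ne_zero _)

theorem F4_delta (ha : a ≠ 0) (hb : b ≠ 0) (hab : a ≠ b) :
    ((F4 a b).baseChange L).toAffine.Δ ≠ 0 := by
  have : CharZero L := algebraRat.charZero L
  have ha' : (a : L) ≠ 0 := by exact_mod_cast ha
  have hb' : (b : L) ≠ 0 := by exact_mod_cast hb
  have hab' : (a : L) - b ≠ 0 := sub_ne_zero.2 (by exact_mod_cast hab)
  have h : ((F4 a b).baseChange L).toAffine.Δ = 256 * a * b * ((a : L) - b) ^ 4 := by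
    rw [WeierstrassCurve.Δ, WeierstrassCurve.b₂, WeierstrassCurve.b₄, WeierstrassCurve.b₆,
      WeierstrassCurve.b₈, F4a1, F4a2, F4a3, F4a4, F4a6]
    ring
  rw [h]
  exact mul_ne_zero (mul_ne_zero (mul_ne_zero (by norm_num) ha') hb') (pow_ne_zero 4 hab')

/-- the isogeny is surjective over an algebraically closed field -/
theorem phi_surj [IsAlgClosed L] (Q : Pt (E (4 * a) (4 * b)) L) :
    ∃ P, phi hISO ha hb hab L P = Q := by
  have : CharZero L := algebraRat.charZero L
  have hab' : (a : L) - b ≠ 0 := sub_ne_zero.2 (by exact_mod_cast hab)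
  rcases Q with _ | ⟨X, Y, hQ⟩
  · exact ⟨0, map_zero _⟩
  · have hE := hQ.1
    rw [Affine.equation_iff, Ea1, Ea2, Ea3, Ea4, Ea6] at hE
    have key : ∃ x y : L, x ≠ 0 ∧ y ^ 2 = x * (x ^ 2 + 2 * ((a : L) + b) * x +
        ((a : L) - b) ^ 2) ∧ y ^ 2 / x ^ 2 = X ∧
        y * (((a : L) - b) ^ 2 - x ^ 2) / x ^ 2 = Y := by
      by_cases hX : X = 0
      · subst hX
        have hY : Y = 0 := by
          have h2 : Y ^ 2 = 0 := by linear_combination hE
          exact pow_eq_zero_iff (two_ne_zero) |>.1 h2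
        subst hY
        -- a root of the quadratic polynomial
        obtain ⟨δ, hδ⟩ := IsAlgClosed.exists_pow_nat_eq (((a : L) + b) ^ 2 - ((a : L) - b) ^ 2)
          (n := 2) (by norm_num)
        set x : L := -((a : L) + b) + δ with hx
        have hroot : x ^ 2 + 2 * ((a : L) + b) * x + ((a : L) - b) ^ 2 = 0 := by
          rw [hx]
          linear_combination hδ
        have hx0 : x ≠ 0 := by
          intro h0
          rw [h0] at hroot
          apply hab'
          have h2 : ((a : L) - b) ^ 2 = 0 := by linear_combination hroot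
          exact pow_eq_zero_iff (two_ne_zero) |>.1 h2
        refine ⟨x, 0, hx0, ?_, ?_, ?_⟩
        · rw [hroot]; ring
        · simp
        · simp
      · obtain ⟨w, hw⟩ := IsAlgClosed.exists_pow_nat_eq X (n := 2) (by norm_num)
        have hw0 : w ≠ 0 := by
          intro h0
          rw [h0] at hw
          apply hX
          rw [← hw]
          ring
        set x : L := (X - 2 * ((a : L) + b) - Y / w) / 2 with hx
        have hxx : x * ((X - 2 * ((a : L) + b) + Y / w) / 2) = ((a : L) - b) ^ 2 := by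
          have h1 : (Y / w) ^ 2 * X = Y ^ 2 := by
            rw [div_pow, hw, div_mul_cancel₀ _ hX]
          have h2 : (Y / w) ^ 2 = X ^ 2 - 4 * ((a : L) + b) * X + 16 * a * b := by
            apply mul_right_cancel₀ hX
            rw [h1]
            linear_combination hE
          rw [hx]
          linear_combination (-1 / 4 : L) * h2
        have hx0 : x ≠ 0 := by
          intro h0
          rw [h0, zero_mul] at hxx
          apply hab'
          exact pow_eq_zero_iff (two_ne_zero) |>.1 hxx.symm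
        have hsum : x + (X - 2 * ((a : L) + b) + Y / w) / 2 = X - 2 * ((a : L) + b) := by
          rw [hx]; ring
        have hY : w * (((X - 2 * ((a : L) + b) + Y / w) / 2) - x) = Y := by
          rw [hx]
          field_simp
          ring
        set x' : L := (X - 2 * ((a : L) + b) + Y / w) / 2 with hx'
        refine ⟨x, w * x, hx0, ?_, ?_, ?_⟩
        · rw [mul_pow, hw, ← hxx]
          linear_combination (-x ^ 2) * hsum
        · rw [mul_pow, hw]
          field_simp
        · rw [← hxx]
          have : w * x * (x * x' - x ^ 2) / x ^ 2 = w * (x' - x) := by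
            field_simp
          rw [this, hY]
    obtain ⟨x, y, hx0, h1, h2, h3⟩ := key
    have hns : ((F4 a b).baseChange L).toAffine.Nonsingular x y := by
      rw [← Affine.equation_iff_nonsingular_of_Δ_ne_zero (F4_delta L ha hb hab),
        Affine.equation_iff, F4a1, F4a2, F4a3, F4a4, F4a6]
      linear_combination h1
    refine ⟨.some x y hns, ?_⟩
    obtain ⟨h', e⟩ := phi_some hISO ha hb hab L x y hns hx0
    rw [e, Affine.Point.some.injEq]
    exact ⟨h2, h3⟩

end phi

end Pool.Agent.W915.LS
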